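import Pool.Agent.EUD.Final

/-!
Holes in rational-distance sets: for every rational-distance set `S` of `E^n`, `n ≥ 2`, containing an affinely
independent frame `b`, every ball contains for all large `T` a point `y` such that the points of `S` of denominator
at most `T` (with respect to the distances to the frame) keep a distance of at least `(log T)^(-40 n)` from `y`.
-/

namespace Pool.Agent.Results.MP_85281a_co.DenominatorGaps

theorem result {n : ℕ} (hn : 2 ≤ n) {S : Set (EuclideanSpace ℝ (Fin n))}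
    (hS : ∀ x ∈ S, ∀ y ∈ S, ∃ q : ℚ, dist x y = q)
    (b : Fin (n + 1) → EuclideanSpace ℝ (Fin n)) (hb : AffineIndependent ℝ b)
    (hbS : ∀ j, b j ∈ S) (y₀ : EuclideanSpace ℝ (Fin n)) {ρ : ℝ} (hρ : 0 < ρ) :
    ∃ T₀ : ℝ, 1 < T₀ ∧ ∀ T : ℝ, T₀ ≤ T → ∃ y ∈ Metric.ball y₀ ρ,
      ∀ w ∈ S, dist w y < 1 / Real.log T ^ (40 * n) →
        ∀ D : ℕ, 0 < D → (∀ j, ∃ a : ℤ, (D : ℝ) * dist w (b j) = a) → T < D :=
  Pool.Agent.EUD.main hn hS b hb hbS y₀ hρ

end Pool.Agent.Results.MP_85281a_co.DenominatorGaps
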