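import Pool.Agent.EGP.Final

/-!
Infinite rational-distance sets in general position: for every `n ≥ 2` there is an infinite rational-distance set in
`E^n` with at most `n` points on every hyperplane, and for odd `n` also at most `n + 1` points on every sphere.
-/

namespace Pool.Agent.Results.MP_85281a_co.GeneralPosition

theorem result (n : ℕ) (hn : 2 ≤ n) : ∃ S : Set (EuclideanSpace ℝ (Fin n)), S.Infinite ∧
    (∀ x ∈ S, ∀ y ∈ S, ∃ q : ℚ, dist x y = q) ∧
    (∀ (v : EuclideanSpace ℝ (Fin n)) (c : ℝ), v ≠ 0 →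
      {x | x ∈ S ∧ inner ℝ x v = c}.Finite ∧ {x | x ∈ S ∧ inner ℝ x v = c}.ncard ≤ n) ∧
    (Odd n → ∀ (z : EuclideanSpace ℝ (Fin n)) (r : ℝ),
      {x | x ∈ S ∧ dist x z = r}.Finite ∧ {x | x ∈ S ∧ dist x z = r}.ncard ≤ n + 1) :=
  Pool.Agent.EGP.main n hn

end Pool.Agent.Results.MP_85281a_co.GeneralPosition
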