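import Mathlib
import Pool.Agent.Hhelper51.ED.Plane

set_option autoImplicit false

/-!
Rational-distance sets and denominators composed of boundedly many non-split primes.
-/

namespace Pool.Agent.Results.MP_85281a_co.NonSplitDenominators

/-- Euclidean space -/
abbrev E (n : ℕ) : Type := EuclideanSpace ℝ (Fin n)

/-- all distances between points of `S` are rational -/
def RationalDistances {n : ℕ} (S : Set (E n)) : Prop :=
  ∀ x ∈ S, ∀ y ∈ S, ∃ q : ℚ, dist x y = (q : ℝ)

/-- `S` is covered by finitely many hyperplanes -/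
def Covered {n : ℕ} (S : Set (E n)) : Prop :=
  ∃ F : Set (E n × ℝ), F.Finite ∧ ∀ w ∈ S, ∃ q ∈ F, q.1 ≠ 0 ∧ inner ℝ w q.1 = q.2

/-- Heron's product, sixteen times the square of the area of a triangle with sides `a, b, c` -/
def heron (a b c : ℚ) : ℚ := (a + b + c) * (-a + b + c) * (a - b + c) * (a + b - c)

/-- `t` is a nonzero square of `ℚ_p` -/
def IsPadicSquare (p : ℕ) [Fact p.Prime] (t : ℚ) : Prop := ∃ z : ℚ_[p], z ≠ 0 ∧ z * z = (t : ℚ_[p])

/-- the triangle `x, y, z` (with rational sides) is non-split at the prime `p`: minus sixteen times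
its squared area is not a nonzero square of `ℚ_p` -/
def NonSplit {n : ℕ} (p : ℕ) (x y z : E n) : Prop :=
  ∀ a b c : ℚ, dist x y = (a : ℝ) → dist x z = (b : ℝ) → dist y z = (c : ℝ) →
    ∀ [Fact p.Prime], ¬ IsPadicSquare p (-heron a b c)

/-- the points `w ∈ S` such that the denominators of the distances from `w` to the points of `S`
involve only primes of a set `P` of at most `r` elements, and every triangle `w, x, y` with
`x, y ∈ S` is non-split at all elements of `P` -/
def TamePoints {n : ℕ} (S : Set (E n)) (r : ℕ) : Set (E n) :=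
  {w | w ∈ S ∧ ∃ P : Finset ℕ, P.card ≤ r ∧ (∀ p ∈ P, ∀ x ∈ S, ∀ y ∈ S, NonSplit p w x y) ∧
    ∀ x ∈ S, ∀ q : ℚ, dist w x = (q : ℝ) → ∀ p : ℕ, p.Prime → p ∣ q.den → p ∈ P}

/-- all points of `T` but finitely many lie on one line -/
def NearlyOnALine (T : Set (E 2)) : Prop :=
  ∃ x d : E 2, d ≠ 0 ∧ (T \ {w | ∃ s : ℝ, w = x + s • d}).Finite

/-- one nondegenerate triangle of `S` that is non-split at `p` forces all triangles of `S` to be
non-split at `p` -/
def TriangleRule (S : Set (E 2)) (p : ℕ) : Prop :=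
  ∀ x ∈ S, ∀ y ∈ S, ∀ z ∈ S, ¬ Collinear ℝ {x, y, z} → NonSplit p x y z →
    ∀ x' ∈ S, ∀ y' ∈ S, ∀ z' ∈ S, NonSplit p x' y' z'

theorem covered_of_affine {n : ℕ} (hn : 1 ≤ n) (S : Set (E n)) (F : Set (AffineSubspace ℝ (E n)))
    (hF : F.Finite) (hA : ∀ A ∈ F, A ≠ ⊤) (hsub : S ⊆ ⋃ A ∈ F, (A : Set (E n))) : Covered S := by
  classical
  have key : ∀ A : AffineSubspace ℝ (E n), A ≠ ⊤ → ∃ q : E n × ℝ, q.1 ≠ 0 ∧
      ∀ w ∈ A, inner ℝ w q.1 = q.2 := by
    intro A hA
    haveI : Nontrivial (E n) := by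
      haveI : Nonempty (Fin n) := ⟨⟨0, by omega⟩⟩
      infer_instance
    by_cases hne : (A : Set (E n)).Nonempty
    · obtain ⟨x, hx⟩ := hne
      have hdt : A.direction ≠ ⊤ := by
        intro h
        exact hA ((AffineSubspace.direction_eq_top_iff_of_nonempty ⟨x, hx⟩).1 h)
      have hbot : A.directionᗮ ≠ ⊥ := by
        intro h
        exact hdt ((Submodule.orthogonal_eq_bot_iff).1 h)
      obtain ⟨v, hv, hv0⟩ := Submodule.exists_mem_ne_zero_of_ne_bot hbot
      refine ⟨(v, inner ℝ x v), hv0, ?_⟩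
      intro w hw
      have h1 : w - x ∈ A.direction := by
        have := AffineSubspace.vsub_mem_direction hw hx
        rwa [vsub_eq_sub] at this
      have h2 := (Submodule.mem_orthogonal _ _).1 hv _ h1
      rw [inner_sub_left] at h2
      exact sub_eq_zero.1 h2
    · obtain ⟨v, hv⟩ := exists_ne (0 : E n)
      refine ⟨(v, 0), hv, ?_⟩
      intro w hw
      exact absurd ⟨w, hw⟩ hne
  let g : AffineSubspace ℝ (E n) → E n × ℝ := fun A => if h : A ≠ ⊤ then (key A h).choose else (0, 0)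
  refine ⟨g '' F, hF.image g, ?_⟩
  intro w hw
  obtain ⟨A, hAF, hwA⟩ := Set.mem_iUnion₂.1 (hsub hw)
  have h := hA A hAF
  refine ⟨g A, ⟨A, hAF, rfl⟩, ?_⟩
  simp only [g, dif_pos h]
  exact ⟨(key A h).choose_spec.1, (key A h).choose_spec.2 w hwA⟩

theorem heron_ne_zero {x y z : E 2} (h : ¬ Collinear ℝ ({x, y, z} : Set (E 2))) (a b c : ℚ)
    (ha : dist x y = (a : ℝ)) (hb : dist x z = (b : ℝ)) (hc : dist y z = (c : ℝ)) :
    heron a b c ≠ 0 := by
  intro h0
  apply h
  have h1 := Pool.Agent.Hhelper51.ED.heron_det x y z a b c ha hb hc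
  have h2 : Pool.Agent.Hhelper51.ED.heron a b c = 0 := h0
  rw [h2, ← Pool.Agent.Hhelper51.ED.gram_two] at h1
  have h3 : ‖y - x‖ ^ 2 * ‖z - x‖ ^ 2 - inner ℝ (y - x) (z - x) ^ 2 = 0 := by
    rw [Rat.cast_zero] at h1
    linarith
  by_cases hu : y - x = 0
  · have : y = x := sub_eq_zero.1 hu
    rw [this, Set.insert_eq_of_mem (Set.mem_insert x {z})]
    exact collinear_pair ℝ x z
  · have hn : ‖y - x‖ ^ 2 ≠ 0 := by
      rw [Ne, pow_eq_zero_iff two_ne_zero, norm_eq_zero]; exact hu
    rw [collinear_iff_of_mem (p₀ := x) (by simp)]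
    refine ⟨y - x, ?_⟩
    intro q hq
    simp only [Set.mem_insert_iff, Set.mem_singleton_iff] at hq
    rcases hq with hq | hq | hq
    · exact ⟨0, by rw [hq]; simp⟩
    · exact ⟨1, by rw [hq]; simp⟩
    · refine ⟨inner ℝ (y - x) (z - x) / ‖y - x‖ ^ 2, ?_⟩
      rw [hq, vadd_eq_add]
      have h4 : ‖(z - x) - (inner ℝ (y - x) (z - x) / ‖y - x‖ ^ 2) • (y - x)‖ ^ 2 = 0 := by
        rw [norm_sub_sq_real, inner_smul_right, norm_smul, mul_pow, Real.norm_eq_abs, sq_abs,
          real_inner_comm (y - x) (z - x)]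
        field_simp
        linarith
      have h5 := norm_eq_zero.1 ((pow_eq_zero_iff two_ne_zero).1 h4)
      have h6 := sub_eq_zero.1 h5
      rw [← h6]; abel

/-- (1) For `n ≥ 2` a rational-distance set of `E^n` that is dense, or just not covered by finitely
many hyperplanes, has for every `r` only finitely many tame points; (2) in the plane
the tame points of an arbitrary rational-distance set lie, up to finitely many, on one line; (3) in
the plane a prime at which one nondegenerate triangle of `S` is non-split is non-split for all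
triangles of `S`. -/
theorem result :
    (∀ n : ℕ, 2 ≤ n → ∀ S : Set (E n), RationalDistances S → Dense S ∨ ¬ Covered S →
      ∀ r : ℕ, (TamePoints S r).Finite) ∧
    (∀ S : Set (E 2), RationalDistances S →
      (∀ r : ℕ, NearlyOnALine (TamePoints S r)) ∧ ∀ p : ℕ, TriangleRule S p) := by
  have htame : ∀ (n : ℕ) (S : Set (E n)) (r : ℕ) (w : E n), w ∈ TamePoints S r →
      w ∈ S ∧ Pool.Agent.Hhelper51.ED.Tame S r w := by
    rintro n S r w ⟨hw, P, hPr, hP, hPd⟩
    exact ⟨hw, P, hPr, fun p hp x hx y hy a b c ha hb hc => hP p hp x hx y hy a b c ha hb hc, hPd⟩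
  refine ⟨?_, ?_⟩
  · intro n hn S hS hd r
    have hcov : ∀ F : Set (AffineSubspace ℝ (E n)), F.Finite → (∀ A ∈ F, A ≠ ⊤) →
        ¬ S ⊆ ⋃ A ∈ F, (A : Set (E n)) := by
      intro F hF hA hsub
      rcases hd with hd | hd
      · exact Pool.Agent.Hhelper51.ED.not_covered_of_dense S hd F hF hA hsub
      · exact hd (covered_of_affine (by omega) S F hF hA hsub)
    exact (Pool.Agent.Hhelper51.ED.main hn S hS hcov r).subset (fun w hw => htame n S r w hw)
  · intro S hS
    refine ⟨?_, ?_⟩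
    · intro r
      obtain ⟨x, d, hd, hfin⟩ := Pool.Agent.Hhelper51.ED.plane S hS r
      refine ⟨x, d, hd, hfin.subset ?_⟩
      rintro w ⟨hw, hl⟩
      exact ⟨(htame 2 S r w hw).1, (htame 2 S r w hw).2, fun s hs => hl ⟨s, hs⟩⟩
    · intro p x hx y hy z hz hcol hns x' hx' y' hy' z' hz' a' b' c' ha' hb' hc' hp
      obtain ⟨a, ha⟩ := hS x hx y hy
      obtain ⟨b, hb⟩ := hS x hx z hz
      obtain ⟨c, hc⟩ := hS y hy z hz
      exact Pool.Agent.Hhelper51.ED.one_triangle S hS p hx hy hz a b c ha hb hc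
        (heron_ne_zero hcol a b c ha hb hc) (fun {_} => hns a b c ha hb hc)
        x' hx' y' hy' z' hz' a' b' c' ha' hb' hc'

end Pool.Agent.Results.MP_85281a_co.NonSplitDenominators
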