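import Pool.Agent.EUP.Final

/-!
Structure of planar rational-distance sets of bounded height: all but `C (log H)^50` points of a planar set whose
distances are fractions `a / b` with `0 ≤ a ≤ H`, `1 ≤ b ≤ H` lie on one line or circle.
-/

namespace Pool.Agent.Results.MP_85281a_co.PlanarStructure

/-- All distances between points of `W` are fractions with numerator and denominator at most `H`. -/
def DistHt (H : ℕ) (W : Set (EuclideanSpace ℝ (Fin 2))) : Prop :=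
  ∀ x ∈ W, ∀ y ∈ W, ∃ a b : ℕ, a ≤ H ∧ 0 < b ∧ b ≤ H ∧ (b : ℝ) * dist x y = a

/-- `Γ` is a line or a circle of the Euclidean plane. -/
def LineOrCircle (Γ : Set (EuclideanSpace ℝ (Fin 2))) : Prop :=
  (∃ p d : EuclideanSpace ℝ (Fin 2), d ≠ 0 ∧ Γ = {w | ∃ s : ℝ, w = p + s • d}) ∨
    ∃ z : EuclideanSpace ℝ (Fin 2), ∃ r : ℝ, 0 < r ∧ Γ = Metric.sphere z r

theorem result : ∃ C : ℝ, ∀ H : ℕ, 2 ≤ H → ∀ W : Set (EuclideanSpace ℝ (Fin 2)), DistHt H W →
    ∃ Γ, LineOrCircle Γ ∧ (W \ Γ).Finite ∧ ((W \ Γ).ncard : ℝ) ≤ C * Real.log H ^ 50 :=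
  Pool.Agent.EUP.main

end Pool.Agent.Results.MP_85281a_co.PlanarStructure
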